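import Pool.Agent.TH572.Saw4846

set_option autoImplicit false

/-!
# Partial sums of the zeta series without small primes, near the line `1`
-/

namespace Run7.h772.WN

open Finset Filter MeasureTheory Topology Complex

lemma s_re (δ h : ℝ) : ((1 + 2 * δ + h * I : ℂ)).re = 1 + 2 * δ := by simp
lemma s_im (δ h : ℝ) : ((1 + 2 * δ + h * I : ℂ)).im = h := by simp

lemma norm_s {δ h : ℝ} (hδ : 0 < δ) (hδ1 : δ ≤ 1 / 16) (hh : 1 ≤ h) :
    ‖(1 + 2 * δ + h * I : ℂ)‖ ≤ 17 / 8 * h := by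
  refine (Complex.norm_le_abs_re_add_abs_im _).trans ?_
  rw [s_re, s_im, abs_of_pos (by linarith), abs_of_pos (by linarith)]
  linarith

/-- partial sums of the zeta series -/
theorem zpa {N : ℕ} (hN : 1 ≤ N) {δ h : ℝ} (hδ : 0 < δ) (hδ1 : δ ≤ 1 / 16) (hh : 1 ≤ h) :
    ‖riemannZeta (1 + 2 * δ + h * I) - ∑ n ∈ Icc 1 N, (n:ℂ) ^ (-(1 + 2 * δ + h * I : ℂ))‖ ≤
      1 / h + 2 * h / N := by
  set s : ℂ := 1 + 2 * δ + h * I with hs
  have hre : s.re = 1 + 2 * δ := s_re δ h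
  have him : s.im = h := s_im δ h
  have hs0 : 0 < s.re := by rw [hre]; linarith
  have hs1 : s ≠ 1 := by
    intro h1
    have := congrArg Complex.im h1
    rw [him] at this
    simp at this
    linarith
  have hN0 : (0 : ℝ) < N := by exact_mod_cast hN
  have hN1 : (1 : ℝ) ≤ N := by exact_mod_cast hN
  have hem := Pool.Agent.TH572.Saw.em hs0 hs1 hN0
  rw [Nat.floor_natCast, Int.fract_natCast, Complex.ofReal_natCast] at hem
  have e : riemannZeta s - ∑ n ∈ Icc 1 N, (n:ℂ) ^ (-s) =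
      -(s * ∫ u in Set.Ioi (N : ℝ), ((Int.fract u - 1 / 2 : ℝ) : ℂ) * (u : ℂ) ^ (-s - 1)) -
        (N : ℂ) ^ (1 - s) / (1 - s) + ((0 - 1 / 2 : ℝ) : ℂ) * (N : ℂ) ^ (-s) := by
    rw [hem]; ring
  rw [e]
  have hNσ : (N : ℝ) ^ (-(1 + 2 * δ)) ≤ 1 / N := by
    rw [one_div, ← Real.rpow_neg_one]
    exact Real.rpow_le_rpow_of_exponent_le hN1 (by linarith)
  -- the integral
  have b1 : ‖∫ u in Set.Ioi (N : ℝ), ((Int.fract u - 1 / 2 : ℝ) : ℂ) * (u : ℂ) ^ (-s - 1)‖ ≤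
      1 / 2 * (1 / N) := by
    have h1 : ‖∫ u in Set.Ioi (N : ℝ), ((Int.fract u - 1 / 2 : ℝ) : ℂ) * (u : ℂ) ^ (-s - 1)‖ ≤
        ∫ u in Set.Ioi (N : ℝ), 1 / 2 * u ^ (-(1 + 2 * δ) - 1) := by
      refine norm_integral_le_of_norm_le ?_ ?_
      · exact (integrableOn_Ioi_rpow_of_lt (by linarith) hN0).const_mul _
      · refine (ae_restrict_mem measurableSet_Ioi).mono fun u hu => ?_
        have hu0 : 0 < u := hN0.trans hu
        rw [norm_mul, Complex.norm_real, Complex.norm_cpow_eq_rpow_re_of_pos hu0]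
        have e1 : (-s - 1).re = -(1 + 2 * δ) - 1 := by
          rw [Complex.sub_re, Complex.neg_re, hre, Complex.one_re]
        rw [e1]
        refine mul_le_mul_of_nonneg_right ?_ (Real.rpow_nonneg hu0.le _)
        rw [Real.norm_eq_abs, abs_le]
        have := Int.fract_nonneg u
        have := Int.fract_lt_one u
        constructor <;> linarith
    refine h1.trans ?_
    rw [integral_const_mul, integral_Ioi_rpow_of_lt (by linarith) hN0]
    have e2 : -(1 + 2 * δ) - 1 + 1 = -(1 + 2 * δ) := by ring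
    rw [e2]
    have h2 : -(N : ℝ) ^ (-(1 + 2 * δ)) / -(1 + 2 * δ) ≤ 1 / N := by
      rw [neg_div_neg_eq, div_le_iff₀ (by linarith)]
      refine hNσ.trans ?_
      have : 0 < 1 / (N : ℝ) := by positivity
      nlinarith
    linarith
  have b2 : ‖(N : ℂ) ^ (1 - s) / (1 - s)‖ ≤ 1 / h := by
    rw [norm_div, Complex.norm_natCast_cpow_of_pos (by omega)]
    have e1 : (1 - s).re = -(2 * δ) := by rw [Complex.sub_re, hre, Complex.one_re]; ring
    rw [e1]
    have h1 : (N : ℝ) ^ (-(2 * δ)) ≤ 1 := Real.rpow_le_one_of_one_le_of_nonpos hN1 (by linarith)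
    have h2 : h ≤ ‖1 - s‖ := by
      have := Complex.abs_im_le_norm (1 - s)
      rw [Complex.sub_im, him, Complex.one_im, zero_sub, abs_neg, abs_of_pos (by linarith)] at this
      exact this
    exact div_le_div₀ (by norm_num) h1 (by linarith) h2
  have b3 : ‖((0 - 1 / 2 : ℝ) : ℂ) * (N : ℂ) ^ (-s)‖ ≤ 1 / 2 * (1 / N) := by
    rw [norm_mul, Complex.norm_natCast_cpow_of_pos (by omega), Complex.norm_real, Real.norm_eq_abs,
      Complex.neg_re, hre]
    rw [show |(0 - 1 / 2 : ℝ)| = 1 / 2 by norm_num]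
    gcongr
  have hsn := norm_s hδ hδ1 hh
  rw [← hs] at hsn
  have b1' : ‖s * ∫ u in Set.Ioi (N : ℝ), ((Int.fract u - 1 / 2 : ℝ) : ℂ) * (u : ℂ) ^ (-s - 1)‖ ≤
      17 / 8 * h * (1 / 2 * (1 / N)) := by
    rw [norm_mul]
    gcongr
  refine (norm_add_le _ _).trans ?_
  refine (add_le_add (norm_sub_le _ _) b3).trans ?_
  rw [norm_neg]
  have h3 : (1 : ℝ) / N ≤ h * (1 / N) := by
    have : 0 < 1 / (N : ℝ) := by positivity
    nlinarith
  have h4 : 2 * h / (N : ℝ) = 2 * (h * (1 / N)) := by ring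
  rw [h4]
  have h5 : 17 / 8 * h * (1 / 2 * (1 / (N : ℝ))) = 17 / 16 * (h * (1 / N)) := by ring
  rw [h5] at b1'
  have h6 : 0 < h * (1 / (N : ℝ)) := by positivity
  linarith

/-- the integers up to `N` without prime factors in `P` -/
def SP (P : Finset ℕ) (N : ℕ) : Finset ℕ := (Icc 1 N).filter fun n => ∀ p ∈ P, ¬ p ∣ n

lemma mem_SP {P : Finset ℕ} {N n : ℕ} : n ∈ SP P N ↔ (1 ≤ n ∧ n ≤ N) ∧ ∀ p ∈ P, ¬ p ∣ n := by
  simp [SP]

lemma nat_mul_cpow (a b : ℕ) (s : ℂ) : ((a * b : ℕ) : ℂ) ^ s = (a : ℂ) ^ s * (b : ℂ) ^ s := by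
  push_cast
  exact Complex.natCast_mul_natCast_cpow a b s

/-- splitting off the multiples of a prime -/
lemma SP_insert {P : Finset ℕ} {q : ℕ} (hq : q.Prime) (hP : ∀ p ∈ P, p.Prime) (hqP : q ∉ P) (N : ℕ)
    (s : ℂ) : ∑ n ∈ SP P N, (n : ℂ) ^ s =
      ∑ n ∈ SP (insert q P) N, (n : ℂ) ^ s + (q : ℂ) ^ s * ∑ n ∈ SP P (N / q), (n : ℂ) ^ s := by
  classical
  have h1 := Finset.sum_filter_add_sum_filter_not (SP P N) (fun n => ¬ q ∣ n)
    (fun n => (n : ℂ) ^ s)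
  rw [← h1]
  congr 1
  · refine Finset.sum_congr ?_ fun _ _ => rfl
    ext n
    simp only [Finset.mem_filter, mem_SP, Finset.mem_insert, forall_eq_or_imp]
    tauto
  · rw [Finset.mul_sum]
    symm
    refine Finset.sum_bij (fun m _ => q * m) ?_ ?_ ?_ ?_
    · intro m hm
      rw [mem_SP] at hm
      simp only [Finset.mem_filter, mem_SP, not_not]
      refine ⟨⟨⟨Nat.mul_pos hq.pos hm.1.1, ?_⟩, ?_⟩, dvd_mul_right _ _⟩
      · exact (Nat.mul_le_mul_left q hm.1.2).trans (Nat.mul_div_le N q)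
      · intro p hp hd
        rcases (hP p hp).dvd_mul.1 hd with h | h
        · exact hqP ((Nat.prime_dvd_prime_iff_eq (hP p hp) hq).1 h ▸ hp)
        · exact hm.2 p hp h
    · intro a _ b _ hab
      exact Nat.eq_of_mul_eq_mul_left hq.pos hab
    · intro n hn
      simp only [Finset.mem_filter, mem_SP, not_not] at hn
      obtain ⟨m, rfl⟩ := hn.2
      refine ⟨m, ?_, rfl⟩
      rw [mem_SP]
      refine ⟨⟨Nat.pos_of_ne_zero fun h => ?_, ?_⟩, fun p hp hd => hn.1.2 p hp (hd.mul_left q)⟩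
      · subst h
        simp at hn
      · exact (Nat.le_div_iff_mul_le hq.pos).2 (by rw [mul_comm]; exact hn.1.1.2)
    · intro m _
      exact (nat_mul_cpow q m s).symm

lemma norm_q_le {q : ℕ} (hq : 1 ≤ q) {δ : ℝ} (hδ : 0 < δ) (h : ℝ) :
    ‖(q : ℂ) ^ (-(1 + 2 * δ + h * I : ℂ))‖ ≤ 1 := by
  rw [Complex.norm_natCast_cpow_of_pos (by omega), Complex.neg_re, s_re]
  exact Real.rpow_le_one_of_one_le_of_nonpos (by exact_mod_cast hq) (by linarith)

/-- the sifted partial sums -/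
theorem sifted (P : Finset ℕ) : (∀ p ∈ P, p.Prime) → ∃ C : ℝ, 0 < C ∧ ∀ (N : ℕ) (δ h : ℝ), 0 < δ →
    δ ≤ 1 / 16 → 1 ≤ h →
    ‖riemannZeta (1 + 2 * δ + h * I) * ∏ p ∈ P, (1 - (p:ℂ) ^ (-(1 + 2 * δ + h * I : ℂ))) -
      ∑ n ∈ SP P N, (n:ℂ) ^ (-(1 + 2 * δ + h * I : ℂ))‖ ≤ C * (1 / h + h / (N + 1)) := by
  classical
  induction P using Finset.induction_on with
  | empty =>
    intro _
    refine ⟨6, by norm_num, fun N δ h hδ hδ1 hh => ?_⟩
    rw [Finset.prod_empty, mul_one]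
    have e : SP ∅ N = Icc 1 N := by
      ext n; rw [mem_SP]; simp
    rw [e]
    have h0 : 0 < h := by linarith
    rcases Nat.eq_zero_or_pos N with rfl | hN
    · have h1 := zpa (N := 1) le_rfl hδ hδ1 hh
      have e1 : ∑ n ∈ (Icc 1 1 : Finset ℕ), (n:ℂ) ^ (-(1 + 2 * δ + h * I : ℂ)) = 1 := by simp
      rw [e1] at h1
      have e2 : ∑ n ∈ (Icc 1 0 : Finset ℕ), (n:ℂ) ^ (-(1 + 2 * δ + h * I : ℂ)) = 0 := by simp
      rw [e2, sub_zero]
      have h2 : ‖riemannZeta (1 + 2 * δ + h * I)‖ ≤ ‖riemannZeta (1 + 2 * δ + h * I) - 1‖ + 1 := by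
        have := norm_add_le (riemannZeta (1 + 2 * δ + h * I) - 1) 1
        rw [sub_add_cancel, norm_one] at this
        exact this
      have h3 : 0 < 1 / h := by positivity
      simp only [Nat.cast_one, div_one] at h1
      simp only [Nat.cast_zero, zero_add, div_one]
      linarith
    · have h1 := zpa (N := N) hN hδ hδ1 hh
      refine h1.trans ?_
      have hN1 : (1 : ℝ) ≤ N := by exact_mod_cast hN
      have h2 : 2 * h / (N : ℝ) ≤ 6 * (h / (N + 1)) := by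
        rw [← mul_div_assoc, div_le_div_iff₀ (by linarith) (by linarith)]
        nlinarith
      have h3 : 0 < 1 / h := by positivity
      linarith
  | insert q P hqP ih =>
    intro hP
    obtain ⟨C, hC, hb⟩ := ih fun p hp => hP p (Finset.mem_insert_of_mem hp)
    have hq : q.Prime := hP q (Finset.mem_insert_self _ _)
    refine ⟨C + C * q, by positivity, fun N δ h hδ hδ1 hh => ?_⟩
    set s : ℂ := 1 + 2 * δ + h * I with hs
    have h1 := hb N δ h hδ hδ1 hh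
    have h2 := hb (N / q) δ h hδ hδ1 hh
    rw [← hs] at h1 h2
    have h3 := SP_insert hq (fun p hp => hP p (Finset.mem_insert_of_mem hp)) hqP N (-s)
    rw [Finset.prod_insert hqP]
    have e : riemannZeta s * ((1 - (q:ℂ) ^ (-s)) * ∏ p ∈ P, (1 - (p:ℂ) ^ (-s))) -
        ∑ n ∈ SP (insert q P) N, (n:ℂ) ^ (-s) =
        (riemannZeta s * ∏ p ∈ P, (1 - (p:ℂ) ^ (-s)) - ∑ n ∈ SP P N, (n:ℂ) ^ (-s)) -
        (q:ℂ) ^ (-s) * (riemannZeta s * ∏ p ∈ P, (1 - (p:ℂ) ^ (-s)) -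
          ∑ n ∈ SP P (N / q), (n:ℂ) ^ (-s)) := by
      rw [h3]; ring
    rw [e]
    refine (norm_sub_le _ _).trans ?_
    rw [norm_mul]
    have hqn : ‖(q:ℂ) ^ (-s)‖ ≤ 1 := norm_q_le hq.one_lt.le hδ h
    have h0 : 0 < h := by linarith
    have hq0 : (1 : ℝ) ≤ q := by exact_mod_cast hq.one_lt.le
    have h4 : h / (((N / q : ℕ) : ℝ) + 1) ≤ q * (h / (N + 1)) := by
      have h5 : N + 1 ≤ q * (N / q + 1) := Nat.succ_le_of_lt (Nat.lt_mul_div_succ N hq.pos)
      have h6 : ((N : ℝ) + 1) ≤ q * (((N / q : ℕ) : ℝ) + 1) := by exact_mod_cast h5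
      rw [← mul_div_assoc, div_le_div_iff₀ (by positivity) (by positivity)]
      calc h * ((N : ℝ) + 1) ≤ h * (q * (((N / q : ℕ) : ℝ) + 1)) := by gcongr
        _ = q * h * (((N / q : ℕ) : ℝ) + 1) := by ring
    have h7 : ‖(q:ℂ) ^ (-s)‖ * ‖riemannZeta s * ∏ p ∈ P, (1 - (p:ℂ) ^ (-s)) -
          ∑ n ∈ SP P (N / q), (n:ℂ) ^ (-s)‖ ≤ 1 * (C * (1 / h + h / (((N / q : ℕ) : ℝ) + 1))) := by
      gcongr
    have h8 : C * (1 / h + h / (((N / q : ℕ) : ℝ) + 1)) ≤ C * q * (1 / h + h / (N + 1)) := by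
      have h9 : 1 / h ≤ q * (1 / h) := by
        have : 0 < 1 / h := by positivity
        nlinarith
      calc C * (1 / h + h / (((N / q : ℕ) : ℝ) + 1)) ≤ C * (q * (1 / h) + q * (h / (N + 1))) := by
            gcongr
        _ = C * q * (1 / h + h / (N + 1)) := by ring
    calc _ ≤ C * (1 / h + h / (N + 1)) + C * q * (1 / h + h / (N + 1)) := by linarith
      _ = _ := by ring

/-- trivial bound of the sifted sums -/
lemma sum_le_log {P : Finset ℕ} {N : ℕ} {δ : ℝ} (hδ : 0 < δ) (h : ℝ) :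
    ‖∑ n ∈ SP P N, (n:ℂ) ^ (-(1 + 2 * δ + h * I : ℂ))‖ ≤ 1 + Real.log N := by
  refine (norm_sum_le _ _).trans ?_
  have h1 : ∑ n ∈ SP P N, ‖(n:ℂ) ^ (-(1 + 2 * δ + h * I : ℂ))‖ ≤ ∑ n ∈ Icc 1 N, (1 : ℝ) / n := by
    refine (Finset.sum_le_sum_of_subset_of_nonneg (Finset.filter_subset _ _)
      fun _ _ _ => norm_nonneg _).trans (Finset.sum_le_sum fun n hn => ?_)
    rw [Finset.mem_Icc] at hn
    rw [Complex.norm_natCast_cpow_of_pos (by omega), Complex.neg_re, s_re, one_div,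
      ← Real.rpow_neg_one]
    exact Real.rpow_le_rpow_of_exponent_le (by exact_mod_cast hn.1) (by linarith)
  refine h1.trans ?_
  have h2 := harmonic_le_one_add_log N
  refine le_trans (le_of_eq ?_) h2
  rw [harmonic_eq_sum_Icc]
  push_cast
  simp only [one_div]

end Run7.h772.WN
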