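import Mathlib

set_option autoImplicit false

/-!
# Mean squares of Dirichlet polynomials with small coefficients on a line `Re s ≥ 1`
-/

namespace Run7.h772.WN

open Finset Filter MeasureTheory Topology

lemma int_cos (x H : ℝ) (hx : x ≠ 0) : ∫ h in (0:ℝ)..H, Real.cos (h * x) = Real.sin (H * x) / x := by
  rw [intervalIntegral.integral_comp_mul_right (fun y => Real.cos y) hx, integral_cos]
  simp [div_eq_inv_mul]

/-- the mean square as a double sum -/
lemma norm_sq_expand {ι : Type*} (K : Finset ι) (a : ι → ℝ) (lam : ι → ℝ) (h : ℝ) :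
    ‖∑ k ∈ K, (a k : ℂ) * Complex.exp (-(h * lam k * Complex.I))‖ ^ 2 =
      ∑ k ∈ K, ∑ l ∈ K, a k * a l * Real.cos (h * (lam k - lam l)) := by
  have e : ∀ k, (a k : ℂ) * Complex.exp (-(h * lam k * Complex.I)) =
      ((a k * Real.cos (h * lam k) : ℝ) : ℂ) - ((a k * Real.sin (h * lam k) : ℝ) : ℂ) * Complex.I := by
    intro k
    have : (-(h * lam k * Complex.I) : ℂ) = ((-(h * lam k) : ℝ) : ℂ) * Complex.I := by push_cast; ring
    rw [this, Complex.exp_mul_I, ← Complex.ofReal_cos, ← Complex.ofReal_sin, Real.cos_neg, Real.sin_neg]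
    push_cast
    ring
  have e2 : ∑ k ∈ K, (a k : ℂ) * Complex.exp (-(h * lam k * Complex.I)) =
      ((∑ k ∈ K, a k * Real.cos (h * lam k) : ℝ) : ℂ) -
        ((∑ k ∈ K, a k * Real.sin (h * lam k) : ℝ) : ℂ) * Complex.I := by
    rw [Finset.sum_congr rfl fun k _ => e k, Finset.sum_sub_distrib, ← Finset.sum_mul]
    push_cast
    ring
  rw [e2, Complex.sq_norm, Complex.normSq_apply]
  simp only [Complex.sub_re, Complex.ofReal_re, Complex.mul_re, Complex.ofReal_im, Complex.I_re,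
    Complex.I_im, Complex.sub_im, Complex.mul_im, mul_zero, mul_one, sub_zero, zero_sub, zero_add,
    zero_mul, add_zero, sub_self]
  rw [Finset.sum_mul_sum, neg_mul_neg, Finset.sum_mul_sum, ← Finset.sum_add_distrib]
  refine Finset.sum_congr rfl fun k _ => ?_
  rw [← Finset.sum_add_distrib]
  refine Finset.sum_congr rfl fun l _ => ?_
  rw [mul_sub, Real.cos_sub]
  ring

/-- the mean square: diagonal and off-diagonal terms -/
lemma mean_sq {ι : Type*} [DecidableEq ι] (K : Finset ι) (a lam : ι → ℝ) (ha : ∀ k ∈ K, 0 ≤ a k)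
    (hinj : ∀ k ∈ K, ∀ l ∈ K, k ≠ l → lam k ≠ lam l) {H : ℝ} :
    ∫ h in (0:ℝ)..H, ‖∑ k ∈ K, (a k : ℂ) * Complex.exp (-(h * lam k * Complex.I))‖ ^ 2 ≤
      H * ∑ k ∈ K, a k ^ 2 + ∑ k ∈ K, ∑ l ∈ K.erase k, a k * a l / |lam k - lam l| := by
  simp_rw [norm_sq_expand]
  rw [intervalIntegral.integral_finsetSum (fun k _ => by
    apply Continuous.intervalIntegrable; fun_prop)]
  rw [Finset.mul_sum, ← Finset.sum_add_distrib]
  refine Finset.sum_le_sum fun k hk => ?_
  rw [intervalIntegral.integral_finsetSum (fun l _ => by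
    apply Continuous.intervalIntegrable; fun_prop)]
  rw [← Finset.add_sum_erase K _ hk]
  refine add_le_add ?_ (Finset.sum_le_sum fun l hl => ?_)
  · simp only [sub_self, mul_zero, Real.cos_zero, mul_one, intervalIntegral.integral_const, sub_zero,
      smul_eq_mul]
    exact le_of_eq (by ring)
  · rw [Finset.mem_erase] at hl
    have hne : lam k - lam l ≠ 0 := sub_ne_zero.2 (hinj k hk l hl.2 (Ne.symm hl.1))
    rw [intervalIntegral.integral_const_mul, int_cos _ _ hne]
    have h1 : Real.sin (H * (lam k - lam l)) / (lam k - lam l) ≤ 1 / |lam k - lam l| := by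
      refine (le_abs_self _).trans ?_
      rw [abs_div]
      exact div_le_div_of_nonneg_right (Real.abs_sin_le_one _) (abs_nonneg _)
    have h2 : 0 ≤ a k * a l := mul_nonneg (ha k hk) (ha l hl.2)
    calc a k * a l * (Real.sin (H * (lam k - lam l)) / (lam k - lam l))
        ≤ a k * a l * (1 / |lam k - lam l|) := mul_le_mul_of_nonneg_left h1 h2
      _ = _ := by ring

lemma one_div_log {k l : ℕ} (hl : 1 ≤ l) (hlk : l < k) :
    1 / |Real.log k - Real.log l| ≤ k / ((k : ℝ) - l) := by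
  have hl0 : (0 : ℝ) < l := by exact_mod_cast hl
  have hk0 : (0 : ℝ) < k := by exact_mod_cast (by omega : 0 < k)
  have hlk' : (l : ℝ) < k := by exact_mod_cast hlk
  have h1 := Real.one_sub_inv_le_log_of_pos (div_pos hk0 hl0)
  rw [Real.log_div hk0.ne' hl0.ne', inv_div] at h1
  have h2 : ((k : ℝ) - l) / k ≤ Real.log k - Real.log l := by
    rw [sub_div, div_self hk0.ne']
    exact h1
  have h3 : 0 < ((k : ℝ) - l) / k := div_pos (by linarith) hk0
  rw [abs_of_pos (by linarith)]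
  calc 1 / (Real.log k - Real.log l) ≤ 1 / (((k : ℝ) - l) / k) := one_div_le_one_div_of_le h3 h2
    _ = k / ((k : ℝ) - l) := by rw [one_div_div]

lemma harm_le {M : ℕ} : ∑ r ∈ Icc 1 M, (1 : ℝ) / r ≤ 1 + Real.log M := by
  have h2 := harmonic_le_one_add_log M
  refine le_trans (le_of_eq ?_) h2
  rw [harmonic_eq_sum_Icc]
  push_cast
  simp only [one_div]

/-- the sum over `l < k ≤ M` of `1 / (l (k - l))` -/
lemma double_harm (M : ℕ) : ∑ k ∈ Icc 1 M, ∑ l ∈ Ico 1 k, (1 : ℝ) / (l * ((k : ℝ) - l)) ≤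
    (1 + Real.log M) ^ 2 := by
  have h1 : ∑ k ∈ Icc 1 M, ∑ l ∈ Ico 1 k, (1 : ℝ) / (l * ((k : ℝ) - l)) =
      ∑ l ∈ Icc 1 M, ∑ k ∈ Ioc l M, (1 : ℝ) / (l * ((k : ℝ) - l)) := by
    refine Finset.sum_comm' fun k l => ?_
    simp only [Finset.mem_Icc, Finset.mem_Ico, Finset.mem_Ioc]
    omega
  rw [h1]
  have h0 : (0 : ℝ) ≤ ∑ r ∈ Icc 1 M, (1 : ℝ) / r := Finset.sum_nonneg fun _ _ => by positivity
  have h2 : ∀ l ∈ Icc 1 M, ∑ k ∈ Ioc l M, (1 : ℝ) / (l * ((k : ℝ) - l)) ≤
      1 / l * ∑ r ∈ Icc 1 M, (1 : ℝ) / r := by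
    intro l hl
    rw [Finset.mem_Icc] at hl
    have h3 : ∑ k ∈ Ioc l M, (1 : ℝ) / (l * ((k : ℝ) - l)) =
        1 / l * ∑ k ∈ Ioc l M, (1 : ℝ) / ((k : ℝ) - l) := by
      rw [Finset.mul_sum]
      refine Finset.sum_congr rfl fun k _ => ?_
      rw [one_div_mul_one_div_rev, mul_comm]
    rw [h3]
    refine mul_le_mul_of_nonneg_left ?_ (by positivity)
    have h4 : ∑ k ∈ Ioc l M, (1 : ℝ) / ((k : ℝ) - l) = ∑ r ∈ Icc 1 (M - l), (1 : ℝ) / r := by
      symm
      refine Finset.sum_bij (fun r _ => r + l) ?_ ?_ ?_ ?_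
      · intro r hr
        simp only [Finset.mem_Icc, Finset.mem_Ioc] at hr ⊢
        omega
      · intro a _ b _ h
        simpa using h
      · intro k hk
        simp only [Finset.mem_Ioc] at hk
        exact ⟨k - l, by simp only [Finset.mem_Icc]; omega, by omega⟩
      · intro r _
        push_cast
        congr 1
        ring
    rw [h4]
    refine Finset.sum_le_sum_of_subset_of_nonneg (fun r hr => ?_) fun _ _ _ => by positivity
    simp only [Finset.mem_Icc] at hr ⊢
    omega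
  refine (Finset.sum_le_sum h2).trans ?_
  rw [← Finset.sum_mul, sq]
  exact mul_le_mul harm_le harm_le h0 (h0.trans harm_le)

/-- mean square of a Dirichlet polynomial with coefficients `a k ≤ A k ^ (ε - 1)` -/
theorem mean_sq_small {K : Finset ℕ} {M : ℕ} (hK : ∀ k ∈ K, 1 ≤ k ∧ k ≤ M) (a : ℕ → ℝ) {A ε : ℝ}
    (hA : 0 ≤ A) (hε : 0 ≤ ε) (ha0 : ∀ k ∈ K, 0 ≤ a k)
    (ha : ∀ k ∈ K, a k ≤ A * ((k : ℝ) ^ ε / k)) (H : ℝ) :
    ∫ h in (0:ℝ)..H, ‖∑ k ∈ K, (a k : ℂ) * Complex.exp (-(h * Real.log k * Complex.I))‖ ^ 2 ≤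
      H * ∑ k ∈ K, a k ^ 2 + 2 * (A ^ 2 * (M : ℝ) ^ (2 * ε)) * (1 + Real.log M) ^ 2 := by
  classical
  refine (mean_sq K a (fun k => Real.log k) ha0 ?_ (H := H)).trans ?_
  · intro k hk l hl hkl h
    apply hkl
    have hk0 : (0 : ℝ) < k := by exact_mod_cast (hK k hk).1
    have hl0 : (0 : ℝ) < l := by exact_mod_cast (hK l hl).1
    exact_mod_cast Real.log_injOn_pos (Set.mem_Ioi.2 hk0) (Set.mem_Ioi.2 hl0) h
  refine add_le_add le_rfl ?_
  -- the bound of a term
  set B : ℝ := A ^ 2 * (M : ℝ) ^ (2 * ε) with hB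
  have hB0 : 0 ≤ B := by positivity
  have hterm : ∀ k ∈ K, ∀ l ∈ K, l < k →
      a k * a l / |Real.log k - Real.log l| ≤ B * (1 / (l * ((k : ℝ) - l))) := by
    intro k hk l hl hlk
    obtain ⟨hk1, hkM⟩ := hK k hk
    obtain ⟨hl1, hlM⟩ := hK l hl
    have hk0 : (0 : ℝ) < k := by exact_mod_cast hk1
    have hl0 : (0 : ℝ) < l := by exact_mod_cast hl1
    have hlk' : (l : ℝ) < k := by exact_mod_cast hlk
    have hd : 0 < (k : ℝ) - l := by linarith
    have h1 := one_div_log hl1 hlk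
    have hkM' : (k : ℝ) ^ ε ≤ (M : ℝ) ^ ε :=
      Real.rpow_le_rpow hk0.le (by exact_mod_cast hkM) hε
    have hlM' : (l : ℝ) ^ ε ≤ (M : ℝ) ^ ε :=
      Real.rpow_le_rpow hl0.le (by exact_mod_cast hlM) hε
    have h2 : a k ≤ A * ((M : ℝ) ^ ε / k) := (ha k hk).trans (by gcongr)
    have h3 : a l ≤ A * ((M : ℝ) ^ ε / l) := (ha l hl).trans (by gcongr)
    have e : (M : ℝ) ^ (2 * ε) = (M : ℝ) ^ ε * (M : ℝ) ^ ε := by
      rw [two_mul]
      rcases Nat.eq_zero_or_pos M with hM | hM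
      · omega
      · exact Real.rpow_add (by exact_mod_cast hM) _ _
    calc a k * a l / |Real.log k - Real.log l| = a k * a l * (1 / |Real.log k - Real.log l|) := by ring
      _ ≤ (A * ((M : ℝ) ^ ε / k)) * (A * ((M : ℝ) ^ ε / l)) * (k / ((k : ℝ) - l)) := by
          have := ha0 k hk
          have := ha0 l hl
          gcongr
      _ = B * (1 / (l * ((k : ℝ) - l))) := by
          rw [hB, e]
          field_simp
  have hsym : ∀ k ∈ K, ∀ l ∈ K, k < l →
      a k * a l / |Real.log k - Real.log l| ≤ B * (1 / (k * ((l : ℝ) - k))) := by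
    intro k hk l hl hkl
    have := hterm l hl k hk hkl
    rwa [mul_comm (a l) (a k), abs_sub_comm] at this
  -- split into `l < k` and `l > k`
  have hsplit : ∑ k ∈ K, ∑ l ∈ K.erase k, a k * a l / |Real.log k - Real.log l| ≤
      ∑ k ∈ Icc 1 M, ∑ l ∈ Ico 1 k, B * (1 / (l * ((k : ℝ) - l))) +
      ∑ k ∈ Icc 1 M, ∑ l ∈ Ioc k M, B * (1 / (k * ((l : ℝ) - k))) := by
    rw [← Finset.sum_add_distrib]
    have hnn : ∀ k ∈ Icc 1 M, 0 ≤ ∑ l ∈ Ico 1 k, B * (1 / (l * ((k : ℝ) - l))) +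
        ∑ l ∈ Ioc k M, B * (1 / (k * ((l : ℝ) - k))) := by
      intro k _
      refine add_nonneg (Finset.sum_nonneg fun l hl => ?_) (Finset.sum_nonneg fun l hl => ?_)
      · rw [Finset.mem_Ico] at hl
        have : (l : ℝ) < k := by exact_mod_cast hl.2
        have : 0 < (k : ℝ) - l := by linarith
        positivity
      · rw [Finset.mem_Ioc] at hl
        have : (k : ℝ) < l := by exact_mod_cast hl.1
        have : 0 < (l : ℝ) - k := by linarith
        positivity
    refine le_trans ?_ (Finset.sum_le_sum_of_subset_of_nonneg (s := K) (t := Icc 1 M)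
      (fun k hk => Finset.mem_Icc.2 (hK k hk)) fun k hk _ => hnn k hk)
    refine Finset.sum_le_sum fun k hk => ?_
    have e : K.erase k = (K.filter (fun l => l < k)) ∪ (K.filter (fun l => k < l)) := by
      ext l
      simp only [Finset.mem_erase, Finset.mem_union, Finset.mem_filter]
      constructor
      · rintro ⟨h1, h2⟩
        rcases lt_or_gt_of_ne h1 with h | h
        · exact Or.inl ⟨h2, h⟩
        · exact Or.inr ⟨h2, h⟩
      · rintro (⟨h1, h2⟩ | ⟨h1, h2⟩)
        · exact ⟨h2.ne, h1⟩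
        · exact ⟨h2.ne', h1⟩
    rw [e, Finset.sum_union]
    · refine add_le_add ?_ ?_
      · refine (Finset.sum_le_sum (g := fun l : ℕ => B * (1 / (l * ((k : ℝ) - l)))) fun l hl => ?_).trans
          (Finset.sum_le_sum_of_subset_of_nonneg ?_ ?_)
        · rw [Finset.mem_filter] at hl
          exact hterm k hk l hl.1 hl.2
        · intro l hl
          rw [Finset.mem_filter] at hl
          exact Finset.mem_Ico.2 ⟨(hK l hl.1).1, hl.2⟩
        · intro l hl _
          rw [Finset.mem_Ico] at hl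
          have : (l : ℝ) < k := by exact_mod_cast hl.2
          have : 0 < (k : ℝ) - l := by linarith
          positivity
      · refine (Finset.sum_le_sum (g := fun l : ℕ => B * (1 / (k * ((l : ℝ) - k)))) fun l hl => ?_).trans
          (Finset.sum_le_sum_of_subset_of_nonneg ?_ ?_)
        · rw [Finset.mem_filter] at hl
          exact hsym k hk l hl.1 hl.2
        · intro l hl
          rw [Finset.mem_filter] at hl
          exact Finset.mem_Ioc.2 ⟨hl.2, (hK l hl.1).2⟩
        · intro l hl _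
          rw [Finset.mem_Ioc] at hl
          have : (k : ℝ) < l := by exact_mod_cast hl.1
          have : 0 < (l : ℝ) - k := by linarith
          positivity
    · rw [Finset.disjoint_left]
      intro l h1 h2
      rw [Finset.mem_filter] at h1 h2
      omega
  refine hsplit.trans ?_
  have h5 : ∑ k ∈ Icc 1 M, ∑ l ∈ Ioc k M, B * (1 / (k * ((l : ℝ) - k))) =
      ∑ k ∈ Icc 1 M, ∑ l ∈ Ico 1 k, B * (1 / (l * ((k : ℝ) - l))) := by
    refine Finset.sum_comm' fun k l => ?_
    simp only [Finset.mem_Icc, Finset.mem_Ico, Finset.mem_Ioc]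
    omega
  rw [h5]
  simp_rw [← Finset.mul_sum]
  have h6 := mul_le_mul_of_nonneg_left (double_harm M) hB0
  linarith

end Run7.h772.WN
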